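import Mathlib
import Pool.Agent.J4H25.PG.Defs

set_option autoImplicit false

namespace Pool.Agent.J4H92.PG

open Pool.Agent.J4H25.PG

section field

variable {K V : Type} [Field K] [AddCommGroup V] [Module K V]

/-- `s` vectors which together with their images are independent. -/
def IndS (g : V →ₗ[K] V) (s : ℕ) : Prop :=
  ∃ v : Fin s → V, LinearIndependent K (Sum.elim v (fun i => g (v i)))

theorem indS_zero (g : V →ₗ[K] V) : IndS g 0 :=
  ⟨fun i => i.elim0, linearIndependent_empty_type⟩

theorem indS_three {g : V →ₗ[K] V} (h : IndS g 3) :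
    ∃ v₁ v₂ v₃ : V, LinearIndependent K ![v₁, v₂, v₃, g v₁, g v₂, g v₃] := by
  obtain ⟨v, hv⟩ := h
  refine ⟨v 0, v 1, v 2, ?_⟩
  have h2 := hv.comp (finSumFinEquiv (m := 3) (n := 3)).symm (Equiv.injective _)
  convert h2 using 1
  funext i
  fin_cases i <;> rfl

/-- A maximal family: all vectors outside the span `M` are eigenvectors modulo `M`. -/
theorem exists_max {g : V →ₗ[K] V} {s : ℕ} (h : IndS g s) (h' : ¬ IndS g (s + 1)) :
    ∃ w : Fin (2 * s) → V, ∀ u : V, u ∉ Submodule.span K (Set.range w) →
      g u ∈ Submodule.span K (Set.range w) ⊔ Submodule.span K {u} := by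
  obtain ⟨v, hv⟩ := h
  let e : Fin (2 * s) ≃ Fin s ⊕ Fin s := (finCongr (two_mul s)).trans finSumFinEquiv.symm
  have hspan : Submodule.span K (Set.range (Sum.elim v (fun i => g (v i)) ∘ e)) =
      Submodule.span K (Set.range (Sum.elim v (fun i => g (v i)))) := by
    rw [e.surjective.range_comp]
  refine ⟨Sum.elim v (fun i => g (v i)) ∘ e, ?_⟩
  rw [hspan]
  intro u hu
  by_contra hcon
  apply h'
  refine ⟨Fin.snoc v u, ?_⟩
  -- build the independent family step by step
  have h1 : LinearIndependent K (fun o : Option (Fin s ⊕ Fin s) =>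
      o.casesOn' u (Sum.elim v (fun i => g (v i)))) := hv.option hu
  have h2 : LinearIndependent K (fun o : Option (Option (Fin s ⊕ Fin s)) =>
      o.casesOn' (g u) (fun o : Option (Fin s ⊕ Fin s) =>
      o.casesOn' u (Sum.elim v (fun i => g (v i))))) := by
    apply h1.option
    intro hmem
    apply hcon
    have hr : Set.range (fun o : Option (Fin s ⊕ Fin s) =>
      o.casesOn' u (Sum.elim v (fun i => g (v i)))) =
        Set.range (Sum.elim v (fun i => g (v i))) ∪ {u} := by
      ext x
      constructor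
      · rintro ⟨o, rfl⟩
        cases o with
        | none => right; rfl
        | some i => left; exact ⟨i, rfl⟩
      · rintro (⟨i, rfl⟩ | hx)
        · exact ⟨some i, rfl⟩
        · exact ⟨none, hx.symm⟩
    rw [hr, Submodule.span_union] at hmem
    exact hmem
  -- reindex
  let f : Fin (s + 1) ⊕ Fin (s + 1) → Option (Option (Fin s ⊕ Fin s)) :=
    Sum.elim (Fin.snoc (α := fun _ => Option (Option (Fin s ⊕ Fin s)))
        (fun i => some (some (Sum.inl i))) (some none))
      (Fin.snoc (α := fun _ => Option (Option (Fin s ⊕ Fin s)))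
        (fun i => some (some (Sum.inr i))) none)
  have hf : Function.Injective f := by
    intro a b hab
    rcases a with a | a <;> rcases b with b | b <;>
    · induction a using Fin.lastCases <;> induction b using Fin.lastCases <;>
      simp_all [f]
  have h3 := h2.comp f hf
  convert h3 using 1
  funext i
  rcases i with i | i <;>
  · induction i using Fin.lastCases <;> simp [f]

/-- Maps all of whose vectors outside of `M` are eigenvectors modulo `M`, with `dim V/M ≥ 2`, are
scalar modulo `M`. -/
theorem scalar_mod {g : V →ₗ[K] V} {M : Submodule K V}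
    (hM : ∀ u : V, u ∉ M → g u ∈ M ⊔ Submodule.span K {u})
    (h2 : ∃ x y : V, LinearIndependent K ![M.mkQ x, M.mkQ y]) :
    ∃ c : K, ∀ u : V, g u - c • u ∈ M := by
  obtain ⟨x, y, hxy⟩ := h2
  have hM' : ∀ u : V, u ∉ M → ∃ c : K, g u - c • u ∈ M := by
    intro u hu
    obtain ⟨m, hm, z, hz, hmz⟩ := Submodule.mem_sup.1 (hM u hu)
    obtain ⟨c, rfl⟩ := Submodule.mem_span_singleton.1 hz
    refine ⟨c, ?_⟩
    rw [← hmz, add_sub_cancel_right]
    exact hm
  have hpair := LinearIndependent.pair_iff.1 hxy
  have hx : x ∉ M := by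
    intro hx
    have := hpair 1 0 (by
      rw [one_smul, zero_smul, add_zero]
      exact (Submodule.Quotient.mk_eq_zero M).2 hx)
    exact one_ne_zero this.1
  have hy : y ∉ M := by
    intro hy
    have := hpair 0 1 (by
      rw [one_smul, zero_smul, zero_add]
      exact (Submodule.Quotient.mk_eq_zero M).2 hy)
    exact one_ne_zero this.2
  -- independence in usable form
  have hind : ∀ a b : K, a • x + b • y ∈ M → a = 0 ∧ b = 0 := by
    intro a b hab
    apply hpair a b
    rw [← map_smul, ← map_smul, ← map_add]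
    exact (Submodule.Quotient.mk_eq_zero M).2 hab
  -- elements of M are mapped to M
  obtain ⟨c, hc⟩ := hM' x hx
  obtain ⟨c', hc'⟩ := hM' y hy
  have hMM : ∀ m ∈ M, g m ∈ M := by
    intro m hm
    have h1 : x + m ∉ M := fun h => hx (by
      have := M.sub_mem h hm
      rwa [add_sub_cancel_right] at this)
    have h2 : y + m ∉ M := fun h => hy (by
      have := M.sub_mem h hm
      rwa [add_sub_cancel_right] at this)
    obtain ⟨a, ha⟩ := hM' _ h1
    obtain ⟨b, hb⟩ := hM' _ h2
    -- g m ≡ (a - c) x ≡ (b - c') y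
    have e1 : g m - (a - c) • x ∈ M := by
      have : g m - (a - c) • x = (g (x + m) - a • (x + m)) - (g x - c • x) + a • m := by
        rw [map_add, smul_add, sub_smul]; abel
      rw [this]
      exact M.add_mem (M.sub_mem ha hc) (M.smul_mem _ hm)
    have e2 : g m - (b - c') • y ∈ M := by
      have : g m - (b - c') • y = (g (y + m) - b • (y + m)) - (g y - c' • y) + b • m := by
        rw [map_add, smul_add, sub_smul]; abel
      rw [this]
      exact M.add_mem (M.sub_mem hb hc') (M.smul_mem _ hm)
    have e3 : (a - c) • x + (-(b - c')) • y ∈ M := by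
      have : (a - c) • x + (-(b - c')) • y = (g m - (b - c') • y) - (g m - (a - c) • x) := by
        rw [neg_smul]; abel
      rw [this]
      exact M.sub_mem e2 e1
    have e4 := (hind _ _ e3).1
    rw [e4, zero_smul, sub_zero] at e1
    exact e1
  -- c' = c
  have key : ∀ u : V, (∃ a b : K, ∃ m ∈ M, u = a • x + b • y + m) → True := fun _ _ => trivial
  -- for every u ∉ M the eigenvalue is c
  have hcc' : c = c' := by
    have h1 : x + y ∉ M := fun h => by
      have := hind 1 1 (by rw [one_smul, one_smul]; exact h)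
      exact one_ne_zero this.1
    obtain ⟨a, ha⟩ := hM' _ h1
    have e : (c - a) • x + (c' - a) • y ∈ M := by
      have : (c - a) • x + (c' - a) • y =
          (g (x + y) - a • (x + y)) - (g x - c • x) - (g y - c' • y) := by
        rw [map_add, smul_add, sub_smul, sub_smul]; abel
      rw [this]
      exact M.sub_mem (M.sub_mem ha hc) hc'
    obtain ⟨e1, e2⟩ := hind _ _ e
    rw [sub_eq_zero] at e1 e2
    rw [e1, e2]
  subst hcc'
  refine ⟨c, fun u => ?_⟩
  by_cases hu : u ∈ M
  · exact M.sub_mem (hMM u hu) (M.smul_mem _ hu)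
  obtain ⟨a, ha⟩ := hM' u hu
  -- u is independent of x or of y modulo M
  have hor : (∀ s t : K, s • u + t • x ∈ M → s = 0 ∧ t = 0) ∨
      (∀ s t : K, s • u + t • y ∈ M → s = 0 ∧ t = 0) := by
    by_contra hcon
    push Not at hcon
    obtain ⟨⟨s, t, hst, hst'⟩, ⟨s', t', hs't', hs't''⟩⟩ := hcon
    have hs : s ≠ 0 := by
      rintro rfl
      rw [zero_smul, zero_add] at hst
      exact hst' rfl (hind t 0 (by rwa [zero_smul, add_zero])).1
    have hs' : s' ≠ 0 := by
      rintro rfl
      rw [zero_smul, zero_add] at hs't'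
      exact hs't'' rfl (hind 0 t' (by rwa [zero_smul, zero_add])).2
    have e : (s' * t) • x + (-(s * t')) • y ∈ M := by
      have : (s' * t) • x + (-(s * t')) • y = s' • (s • u + t • x) - s • (s' • u + t' • y) := by
        rw [smul_add, smul_add, smul_smul, smul_smul, smul_smul, smul_smul, neg_smul,
          mul_comm s s']
        abel
      rw [this]
      exact M.sub_mem (M.smul_mem _ hst) (M.smul_mem _ hs't')
    obtain ⟨e1, e2⟩ := hind _ _ e
    have ht : t = 0 := by
      rcases mul_eq_zero.1 e1 with h | h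
      · exact absurd h hs'
      · exact h
    rw [ht, zero_smul, add_zero] at hst
    exact hu ((M.smul_mem_iff hs).1 hst)
  have fin : ∀ z : V, g z - c • z ∈ M → (∀ s t : K, s • u + t • z ∈ M → s = 0 ∧ t = 0) → a = c := by
    intro z hz hi
    have h1 : u + z ∉ M := fun h => by
      have := hi 1 1 (by rw [one_smul, one_smul]; exact h)
      exact one_ne_zero this.1
    obtain ⟨b, hb⟩ := hM' _ h1
    have e : (a - b) • u + (c - b) • z ∈ M := by
      have : (a - b) • u + (c - b) • z =
          (g (u + z) - b • (u + z)) - (g u - a • u) - (g z - c • z) := by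
        rw [map_add, smul_add, sub_smul, sub_smul]; abel
      rw [this]
      exact M.sub_mem (M.sub_mem hb ha) hz
    obtain ⟨e1, e2⟩ := hi _ _ e
    rw [sub_eq_zero] at e1 e2
    rw [e1, e2]
  have hac : a = c := by
    rcases hor with h | h
    · exact fin x hc h
    · exact fin y hc' h
  rw [← hac]
  exact ha

/-- Structure of the exceptional maps: scalar plus rank at most four. -/
theorem few_structure [FiniteDimensional K V] (hd : 6 ≤ Module.finrank K V) {g : V →ₗ[K] V}
    (hg : ∀ v₁ v₂ v₃ : V, ¬ LinearIndependent K ![v₁, v₂, v₃, g v₁, g v₂, g v₃]) :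
    ∃ (c : K) (w : Fin 4 → V) (φ : V →ₗ[K] (Fin 4 → K)),
      g = c • LinearMap.id + (Fintype.linearCombination K w).comp φ := by
  -- a maximal family
  have hs : ∃ s : ℕ, s ≤ 2 ∧ IndS g s ∧ ¬ IndS g (s + 1) := by
    by_contra hcon
    push Not at hcon
    have h0 := indS_zero g
    have h1 := hcon 0 (by norm_num) h0
    have h2 := hcon 1 (by norm_num) h1
    have h3 := hcon 2 (by norm_num) h2
    obtain ⟨v₁, v₂, v₃, h⟩ := indS_three h3
    exact hg _ _ _ h
  obtain ⟨s, hs2, hs, hs'⟩ := hs
  obtain ⟨w, hw⟩ := exists_max hs hs'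
  set M := Submodule.span K (Set.range w) with hMdef
  have hMdim : Module.finrank K M ≤ 4 := by
    have := finrank_range_le_card (R := K) w
    rw [Fintype.card_fin] at this
    have h4 : Set.finrank K (Set.range w) = Module.finrank K M := rfl
    omega
  -- the quotient has dimension at least two
  have hq : 2 ≤ Module.finrank K (V ⧸ M) := by
    have := Submodule.finrank_quotient_add_finrank M
    omega
  have h2 : ∃ x y : V, LinearIndependent K ![M.mkQ x, M.mkQ y] := by
    obtain ⟨f, hf⟩ := exists_linearIndependent_of_le_finrank (R := K) (M := V ⧸ M) hq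
    obtain ⟨x, hx⟩ := M.mkQ_surjective (f 0)
    obtain ⟨y, hy⟩ := M.mkQ_surjective (f 1)
    refine ⟨x, y, ?_⟩
    rw [hx, hy]
    convert hf using 1
    funext i
    fin_cases i <;> rfl
  obtain ⟨c, hc⟩ := scalar_mod hw h2
  -- four generators of M
  have hgen : ∃ w' : Fin 4 → V, M ≤ LinearMap.range (Fintype.linearCombination K w') := by
    let b := Module.finBasis K M
    refine ⟨fun i => if h : (i : ℕ) < Module.finrank K M then (b ⟨i, h⟩ : V) else 0, ?_⟩
    rw [Fintype.range_linearCombination]
    intro x hx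
    have hx' : (⟨x, hx⟩ : M) ∈ Submodule.span K (Set.range b) := by
      rw [b.span_eq]; trivial
    have h1 : x ∈ Submodule.map M.subtype (Submodule.span K (Set.range b)) := ⟨_, hx', rfl⟩
    rw [Submodule.map_span] at h1
    refine Submodule.span_mono ?_ h1
    rintro _ ⟨_, ⟨i, rfl⟩, rfl⟩
    refine ⟨⟨i, by omega⟩, ?_⟩
    simp
  obtain ⟨w', hw'⟩ := hgen
  set L := Fintype.linearCombination K w' with hL
  obtain ⟨σ, hσ⟩ := L.rangeRestrict.exists_rightInverse_of_surjective (LinearMap.range_rangeRestrict L)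
  let f : V →ₗ[K] LinearMap.range L :=
    LinearMap.codRestrict (LinearMap.range L) (g - c • LinearMap.id) (fun u => hw' (hc u))
  refine ⟨c, w', σ.comp f, ?_⟩
  ext u
  have h5 : L (σ (f u)) = g u - c • u := by
    have h6 : L.rangeRestrict (σ (f u)) = f u := by
      exact LinearMap.congr_fun hσ (f u)
    have h7 := congrArg Subtype.val h6
    simpa [f] using h7
  rw [LinearMap.add_apply, LinearMap.comp_apply, LinearMap.comp_apply, h5]
  simp

end field

variable {p : ℕ} [Fact p.Prime] {V W : Type} [AddCommGroup V] [AddCommGroup W] [Module (ZMod p) V]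
  [Module (ZMod p) W]

/-- S8b: few exceptional maps -/
theorem t_few [Finite V] {d : ℕ} (hV : Module.finrank (ZMod p) V = d) (hd : 6 ≤ d) :
    Nat.card {g : V →ₗ[ZMod p] V // ∀ v₁ v₂ v₃ : V,
      ¬ LinearIndependent (ZMod p) ![v₁, v₂, v₃, g v₁, g v₂, g v₃]} ≤ p ^ (8 * d + 1) := by
  classical
  have : FiniteDimensional (ZMod p) V := inferInstance
  have hVc : Nat.card V = p ^ d := by
    rw [Module.natCard_eq_pow_finrank (K := ZMod p), hV, Nat.card_zmod]
  let T := ZMod p × (Fin 4 → V) × (V →ₗ[ZMod p] (Fin 4 → ZMod p))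
  have : Finite (V →ₗ[ZMod p] (Fin 4 → ZMod p)) :=
    Module.finite_of_finite (ZMod p)
  have : Finite T := inferInstance
  let Φ : T → (V →ₗ[ZMod p] V) := fun t =>
    t.1 • LinearMap.id + (Fintype.linearCombination (ZMod p) t.2.1).comp t.2.2
  have hT : Nat.card T = p ^ (8 * d + 1) := by
    rw [Nat.card_prod, Nat.card_prod, Nat.card_fun, hVc, Nat.card_zmod, Nat.card_eq_fintype_card
      (α := Fin 4), Fintype.card_fin,
      Module.natCard_eq_pow_finrank (K := ZMod p) (V := V →ₗ[ZMod p] (Fin 4 → ZMod p)),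
      Module.finrank_linearMap, hV, Nat.card_zmod, Module.finrank_fin_fun]
    rw [← pow_mul, ← pow_add, ← pow_succ']
    congr 1
    ring
  rw [← hT]
  have hsub : {g : V →ₗ[ZMod p] V | ∀ v₁ v₂ v₃ : V,
      ¬ LinearIndependent (ZMod p) ![v₁, v₂, v₃, g v₁, g v₂, g v₃]} ⊆ Set.range Φ := by
    intro g hg
    obtain ⟨c, w, φ, h⟩ := few_structure (by rw [hV]; exact hd) hg
    exact ⟨(c, w, φ), h.symm⟩
  calc Nat.card {g : V →ₗ[ZMod p] V // ∀ v₁ v₂ v₃ : V,
      ¬ LinearIndependent (ZMod p) ![v₁, v₂, v₃, g v₁, g v₂, g v₃]}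
      ≤ Nat.card (Set.range Φ) := Nat.card_mono (Set.finite_range Φ) hsub
    _ ≤ Nat.card T := Finite.card_range_le Φ

end Pool.Agent.J4H92.PG
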