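import Mathlib
import Pool.Agent.J4H25.PG.Defs

set_option autoImplicit false

namespace Pool.Agent.J4H92.PG

open Pool.Agent.J4H25.PG

variable {p : ℕ} [Fact p.Prime] {V W : Type} [AddCommGroup V] [AddCommGroup W] [Module (ZMod p) V]
  [Module (ZMod p) W]

/-- The alternating map with prescribed values at the pairs `σ t` of basis vectors. -/
noncomputable def alt {ι T : Type} (b : Module.Basis ι (ZMod p) V) (σ : T → ι × ι) (c : T → W) :
    V →ₗ[ZMod p] V →ₗ[ZMod p] W :=
  b.constr (ZMod p) (fun i => b.constr (ZMod p) (fun j => Function.extend σ c 0 (i, j))) -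
    (b.constr (ZMod p) (fun i => b.constr (ZMod p)
      (fun j => Function.extend σ c 0 (i, j)))).flip

theorem alt_apply {ι T : Type} (b : Module.Basis ι (ZMod p) V) (σ : T → ι × ι) (c : T → W)
    (i j : ι) : alt b σ c (b i) (b j) =
      Function.extend σ c 0 (i, j) - Function.extend σ c 0 (j, i) := by
  simp [alt, Module.Basis.constr_basis]

theorem alt_mem {ι T : Type} (b : Module.Basis ι (ZMod p) V) (σ : T → ι × ι) (c : T → W) :
    alt b σ c ∈ Alt p V W := by
  intro v
  simp [alt]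

theorem Alt.swap {κ : V →ₗ[ZMod p] V →ₗ[ZMod p] W} (hκ : κ ∈ Alt p V W) (u v : V) :
    κ u v = - κ v u := by
  have h := hκ (u + v)
  rw [map_add, map_add, LinearMap.add_apply, LinearMap.add_apply, hκ u, hκ v, zero_add,
    add_zero] at h
  exact eq_neg_of_add_eq_zero_right h

/-- A subgroup of alternating maps which are determined by their values at the pairs outside of
`σ` is small. -/
theorem card_mul_le [Finite V] [Finite W] {ι T : Type} [Finite T] (b : Module.Basis ι (ZMod p) V)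
    (σ : T → ι × ι) (hσ : Function.Injective σ) (hσ' : ∀ t t', σ t ≠ (σ t').swap)
    (F : Set (Alt p V W)) (hsub : ∀ κ ∈ F, ∀ κ' ∈ F, κ - κ' ∈ F)
    (hF : ∀ κ ∈ F, (∀ i j, (i, j) ∉ Set.range σ → (j, i) ∉ Set.range σ →
      κ.1 (b i) (b j) = 0) → κ = 0) :
    Nat.card F * (Nat.card W) ^ (Nat.card T) ≤ Nat.card (Alt p V W) := by
  classical
  have : Finite (V →ₗ[ZMod p] V →ₗ[ZMod p] W) := by
    have h1 : Finite (V →ₗ[ZMod p] W) := Module.finite_of_finite (ZMod p)
    exact Module.finite_of_finite (ZMod p)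
  have hfun : Nat.card (T → W) = (Nat.card W) ^ (Nat.card T) := Nat.card_fun
  rw [← hfun, ← Nat.card_prod]
  refine Nat.card_le_card_of_injective
    (fun x : F × (T → W) => x.1.1 + (⟨alt b σ x.2, alt_mem b σ x.2⟩ : Alt p V W)) ?_
  rintro ⟨⟨κ, hκ⟩, c⟩ ⟨⟨κ', hκ'⟩, c'⟩ h
  have h' : κ + (⟨alt b σ c, alt_mem b σ c⟩ : Alt p V W) =
      κ' + (⟨alt b σ c', alt_mem b σ c'⟩ : Alt p V W) := h
  have hval : κ.1 + alt b σ c = κ'.1 + alt b σ c' := congrArg Subtype.val h'
  have hpt : ∀ i j, κ.1 (b i) (b j) + alt b σ c (b i) (b j) =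
      κ'.1 (b i) (b j) + alt b σ c' (b i) (b j) := by
    intro i j
    have := LinearMap.congr_fun (LinearMap.congr_fun hval (b i)) (b j)
    simpa using this
  have hnot : ∀ (c : T → W) (x : ι × ι), x ∉ Set.range σ → Function.extend σ c 0 x = 0 := by
    intro c x hx
    rw [Function.extend_apply']
    · rfl
    · exact hx
  have hκκ : κ = κ' := by
    rw [← sub_eq_zero]
    apply hF _ (hsub _ hκ _ hκ')
    intro i j hij hji
    have h1 := hpt i j
    rw [alt_apply, alt_apply, hnot c _ hij, hnot c _ hji, hnot c' _ hij, hnot c' _ hji] at h1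
    simp only [sub_self, add_zero] at h1
    have h2 : (κ - κ').1 (b i) (b j) = κ.1 (b i) (b j) - κ'.1 (b i) (b j) := rfl
    rw [h2, h1, sub_self]
  subst hκκ
  have hcc : c = c' := by
    funext t
    have h1 := hpt (σ t).1 (σ t).2
    have h2 : ((σ t).2, (σ t).1) ∉ Set.range σ := by
      rintro ⟨t', ht'⟩
      exact hσ' t' t ht'
    rw [alt_apply, alt_apply, hnot c _ h2, hnot c' _ h2] at h1
    have h3 : ∀ c : T → W, Function.extend σ c 0 ((σ t).1, (σ t).2) = c t := by
      intro c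
      exact hσ.extend_apply c 0 t
    rw [h3, h3, sub_zero, sub_zero] at h1
    exact add_left_cancel h1
  rw [hcc]

/-- An independent family is the first part of a basis. -/
theorem exists_basis_sum {K U : Type} [Field K] [AddCommGroup U] [Module K U]
    [FiniteDimensional K U] {α : Type} [Fintype α] {f : α → U} (hf : LinearIndependent K f) :
    ∃ e : ℕ, Fintype.card α + e = Module.finrank K U ∧
      ∃ b : Module.Basis (α ⊕ Fin e) K U, ∀ a, b (Sum.inl a) = f a := by
  obtain ⟨N, hN⟩ := Submodule.exists_isCompl (Submodule.span K (Set.range f))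
  let b1 := Module.Basis.span hf
  have h1 : Module.finrank K (Submodule.span K (Set.range f)) = Fintype.card α :=
    finrank_span_eq_card hf
  let b2 := Module.finBasis K N
  refine ⟨Module.finrank K N, ?_, (b1.prod b2).map (Submodule.prodEquivOfIsCompl _ _ hN), ?_⟩
  · rw [← h1]
    exact Submodule.finrank_add_eq_of_isCompl hN
  · intro a
    simp [b1, Module.Basis.span_apply]

/-- The pairs of the second block. -/
def sig (s e : ℕ) : {x : Fin s × Fin s // x.1 < x.2} ⊕ (Fin s × Fin e) →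
    ((Fin s ⊕ Fin s) ⊕ Fin e) × ((Fin s ⊕ Fin s) ⊕ Fin e)
  | Sum.inl x => (Sum.inl (Sum.inr x.1.1), Sum.inl (Sum.inr x.1.2))
  | Sum.inr x => (Sum.inl (Sum.inr x.1), Sum.inr x.2)

theorem sig_inj (s e : ℕ) : Function.Injective (sig s e) := by
  rintro (⟨⟨a, b⟩, h⟩ | ⟨a, b⟩) (⟨⟨a', b'⟩, h'⟩ | ⟨a', b'⟩) hab <;> simp_all [sig]

theorem sig_swap (s e : ℕ) (t t') : sig s e t ≠ (sig s e t').swap := by
  rcases t with ⟨⟨a, b⟩, h⟩ | ⟨a, b⟩ <;> rcases t' with ⟨⟨a', b'⟩, h'⟩ | ⟨a', b'⟩ <;>
    simp only [sig, Prod.swap, ne_eq, Prod.mk.injEq, Sum.inl.injEq, Sum.inr.injEq, reduceCtorEq,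
      and_false, false_and, not_false_eq_true, not_and]
  rintro rfl rfl
  exact absurd h (not_lt.2 h'.le)

theorem fix_general [Finite V] [Finite W] (g : V ≃ₗ[ZMod p] V) (h : W ≃ₗ[ZMod p] W) {s : ℕ}
    (v : Fin s → V) (hv : LinearIndependent (ZMod p) (Sum.elim v (fun i => g (v i)))) :
    ∃ e : ℕ, 2 * s + e = Module.finrank (ZMod p) V ∧
    Nat.card {κ : Alt p V W // ∀ u v, κ.1 (g u) (g v) = h (κ.1 u v)} *
      (Nat.card W) ^ (Nat.card ({x : Fin s × Fin s // x.1 < x.2} ⊕ (Fin s × Fin e))) ≤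
        Nat.card (Alt p V W) := by
  obtain ⟨e, he, b, hb⟩ := exists_basis_sum hv
  rw [Fintype.card_sum, Fintype.card_fin] at he
  refine ⟨e, by omega, ?_⟩
  refine card_mul_le b (sig s e) (sig_inj s e) (sig_swap s e)
    {κ : Alt p V W | ∀ u v, κ.1 (g u) (g v) = h (κ.1 u v)} ?_ ?_
  · intro κ hκ κ' hκ' u v
    have h1 := hκ u v
    have h2 := hκ' u v
    change κ.1 (g u) (g v) - κ'.1 (g u) (g v) = h (κ.1 u v - κ'.1 u v)
    rw [h1, h2, map_sub]
  · intro κ hκ h0
    have hκ' : ∀ u v, κ.1 (g u) (g v) = h (κ.1 u v) := hκ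
    have hsw := fun u v => Alt.swap κ.2 u v
    -- first block
    have B1 : ∀ i : Fin s, κ.1 (v i) = 0 := by
      intro i
      refine b.ext fun j => ?_
      have h1 := h0 (Sum.inl (Sum.inl i)) j (by
        rintro ⟨t, ht⟩
        rcases t with ⟨⟨a, b⟩, h⟩ | ⟨a, b⟩ <;> simp [sig] at ht) (by
        rintro ⟨t, ht⟩
        rcases t with ⟨⟨a, b⟩, h⟩ | ⟨a, b⟩ <;> simp [sig] at ht)
      rw [hb] at h1
      simpa using h1
    -- second block
    have B2 : ∀ i : Fin s, κ.1 (g (v i)) = 0 := by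
      intro i
      ext x
      obtain ⟨y, rfl⟩ := g.surjective x
      rw [hκ', B1]
      simp
    apply Subtype.ext
    change κ.1 = 0
    refine b.ext fun i => b.ext fun j => ?_
    change κ.1 (b i) (b j) = 0
    rcases i with (i | i) | i
    · rw [hb]
      change κ.1 (v i) (b j) = 0
      rw [B1]; rfl
    · rw [hb]
      change κ.1 (g (v i)) (b j) = 0
      rw [B2]; rfl
    · rcases j with (j | j) | j
      · rw [hsw, hb]
        change - κ.1 (v j) _ = 0
        rw [B1]; simp
      · rw [hsw, hb]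
        change - κ.1 (g (v j)) _ = 0
        rw [B2]; simp
      · apply h0
        · rintro ⟨t, ht⟩
          rcases t with ⟨⟨a, b⟩, h⟩ | ⟨a, b⟩ <;> simp [sig] at ht
        · rintro ⟨t, ht⟩
          rcases t with ⟨⟨a, b⟩, h⟩ | ⟨a, b⟩ <;> simp [sig] at ht

/-- S8a: fixed points, with `s` independent vectors -/
theorem t_fix [Finite V] [Finite W] {d m : ℕ} (hV : Module.finrank (ZMod p) V = d)
    (hW : Module.finrank (ZMod p) W = m) (g : V ≃ₗ[ZMod p] V) (h : W ≃ₗ[ZMod p] W) :
    (∀ v : V, LinearIndependent (ZMod p) ![v, g v] →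
      Nat.card {κ : Alt p V W // ∀ u v, κ.1 (g u) (g v) = h (κ.1 u v)} * p ^ (m * (d - 2)) ≤
        Nat.card (Alt p V W)) ∧
    (∀ v₁ v₂ v₃ : V, LinearIndependent (ZMod p) ![v₁, v₂, v₃, g v₁, g v₂, g v₃] →
      Nat.card {κ : Alt p V W // ∀ u v, κ.1 (g u) (g v) = h (κ.1 u v)} * p ^ (m * (3 * d - 15)) ≤
        Nat.card (Alt p V W)) := by
  have hWc : Nat.card W = p ^ m := by
    rw [Module.natCard_eq_pow_finrank (K := ZMod p), hW, Nat.card_zmod]
  constructor
  · intro v hv
    have hv' : LinearIndependent (ZMod p) (Sum.elim ![v] (fun i => g (![v] i))) := by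
      have h2 := hv.comp (finSumFinEquiv (m := 1) (n := 1)) (Equiv.injective _)
      convert h2 using 1
      funext i
      rcases i with i | i <;> fin_cases i <;> rfl
    obtain ⟨e, he, hcard⟩ := fix_general (W := W) g h ![v] hv'
    rw [hWc, ← pow_mul] at hcard
    have hT : Nat.card ({x : Fin 1 × Fin 1 // x.1 < x.2} ⊕ (Fin 1 × Fin e)) = d - 2 := by
      rw [Nat.card_sum, Nat.card_prod, Nat.card_eq_fintype_card, Nat.card_eq_fintype_card,
        Nat.card_eq_fintype_card, Fintype.card_fin, Fintype.card_fin]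
      have : Fintype.card {x : Fin 1 × Fin 1 // x.1 < x.2} = 0 := by decide
      omega
    rw [hT] at hcard
    exact hcard
  · intro v₁ v₂ v₃ hv
    have hv' : LinearIndependent (ZMod p)
        (Sum.elim ![v₁, v₂, v₃] (fun i => g (![v₁, v₂, v₃] i))) := by
      have h2 := hv.comp (finSumFinEquiv (m := 3) (n := 3)) (Equiv.injective _)
      convert h2 using 1
      funext i
      rcases i with i | i <;> fin_cases i <;> rfl
    obtain ⟨e, he, hcard⟩ := fix_general (W := W) g h ![v₁, v₂, v₃] hv'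
    rw [hWc, ← pow_mul] at hcard
    have hT : Nat.card ({x : Fin 3 × Fin 3 // x.1 < x.2} ⊕ (Fin 3 × Fin e)) = 3 * d - 15 := by
      rw [Nat.card_sum, Nat.card_prod, Nat.card_eq_fintype_card, Nat.card_eq_fintype_card,
        Nat.card_eq_fintype_card, Fintype.card_fin, Fintype.card_fin]
      have : Fintype.card {x : Fin 3 × Fin 3 // x.1 < x.2} = 3 := by decide
      omega
    rw [hT] at hcard
    exact hcard

end Pool.Agent.J4H92.PG
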