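import Mathlib
import Pool.Agent.J4H25.PG.Defs

set_option autoImplicit false

namespace Pool.Agent.J4H92.PG

open Pool.Agent.J4H25.PG

/-- `∏_{j=1}^{n} (1 - p^{-j}) ≥ 1/4 + 2^{-n-1}` for `p ≥ 2`, `n ≥ 1`. -/
theorem prod_lower {p : ℕ} (hp : 2 ≤ p) (n : ℕ) :
    (1 / 4 : ℝ) + (1 / 2) ^ (n + 2) ≤ ∏ j ∈ Finset.range (n + 1), (1 - ((p : ℝ)⁻¹) ^ (j + 1)) := by
  have hp' : (2 : ℝ) ≤ p := by exact_mod_cast hp
  have hinv : (p : ℝ)⁻¹ ≤ 1 / 2 := by
    rw [inv_le_comm₀ (by linarith) (by norm_num)]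
    norm_num
    exact_mod_cast hp
  have hinv0 : 0 ≤ (p : ℝ)⁻¹ := by positivity
  induction n with
  | zero =>
    simp only [Finset.prod_range_succ, Finset.prod_range_zero, one_mul, zero_add, pow_one]
    norm_num
    linarith
  | succ n ih =>
    rw [Finset.prod_range_succ]
    have h1 : ((p : ℝ)⁻¹) ^ (n + 1 + 1) ≤ (1 / 2) ^ (n + 1 + 1) :=
      pow_le_pow_left₀ hinv0 hinv _
    have h2 : (1 / 2 : ℝ) ^ (n + 1 + 1) ≤ 1 / 4 := by
      have : (1 / 2 : ℝ) ^ (n + 1 + 1) = (1 / 2) ^ n * (1 / 4) := by ring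
      rw [this]
      have : (1 / 2 : ℝ) ^ n ≤ 1 := pow_le_one₀ (by norm_num) (by norm_num)
      linarith
    have h0 : (0 : ℝ) < (1 / 2) ^ (n + 2) := by positivity
    have h3 : (1 / 4 : ℝ) + (1 / 2) ^ (n + 1 + 2) ≤
        (1 / 4 + (1 / 2) ^ (n + 2)) * (1 - (1 / 2) ^ (n + 1 + 1)) := by
      have e1 : (1 / 2 : ℝ) ^ (n + 1 + 2) = (1 / 2) ^ (n + 2) / 2 := by ring
      have e2 : (1 / 2 : ℝ) ^ (n + 1 + 1) = (1 / 2) ^ (n + 2) := by ring
      rw [e1, e2]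
      rw [e2] at h2
      nlinarith
    refine h3.trans (mul_le_mul ih (by linarith) (by linarith) ?_)
    exact le_trans (by positivity) ih

variable {p : ℕ} [Fact p.Prime] {V W : Type} [AddCommGroup V] [AddCommGroup W] [Module (ZMod p) V]
  [Module (ZMod p) W]

/-- S8c: lower bound of the order of `GL` -/
theorem t_GL [Finite V] {d : ℕ} (hV : Module.finrank (ZMod p) V = d) :
    p ^ (d * d) ≤ 4 * Nat.card (V ≃ₗ[ZMod p] V) := by
  have hp := (Fact.out : p.Prime).two_le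
  have hcard : Nat.card (V ≃ₗ[ZMod p] V) = ∏ i : Fin d, (p ^ d - p ^ (i : ℕ)) := by
    have e1 : LinearMap.GeneralLinearGroup (ZMod p) V ≃ (V ≃ₗ[ZMod p] V) :=
      (LinearMap.GeneralLinearGroup.generalLinearEquiv (ZMod p) V).toEquiv
    let b := Module.finBasisOfFinrankEq (ZMod p) V hV
    have e2 : LinearMap.GeneralLinearGroup (ZMod p) V ≃ Matrix.GeneralLinearGroup (Fin d) (ZMod p) :=
      (Units.mapEquiv (LinearMap.toMatrixAlgEquiv b).toMulEquiv).toEquiv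
    rw [← Nat.card_congr e1, Nat.card_congr e2, Matrix.card_GL_field, ZMod.card]
  rw [hcard]
  rcases Nat.eq_zero_or_pos d with rfl | hd
  · simp
  obtain ⟨n, rfl⟩ : ∃ n, d = n + 1 := ⟨d - 1, by omega⟩
  have key := prod_lower hp n
  have hpR : (0 : ℝ) < p := by positivity
  have e : ((∏ i : Fin (n + 1), (p ^ (n + 1) - p ^ (i : ℕ)) : ℕ) : ℝ) =
      (p : ℝ) ^ ((n + 1) * (n + 1)) * ∏ j ∈ Finset.range (n + 1), (1 - ((p : ℝ)⁻¹) ^ (j + 1)) := by
    have e0 : (p : ℝ) ^ ((n + 1) * (n + 1)) = ∏ _i : Fin (n + 1), (p : ℝ) ^ (n + 1) := by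
      rw [Finset.prod_const, Finset.card_univ, Fintype.card_fin, pow_mul]
    rw [← Finset.prod_range_reflect, ← Fin.prod_univ_eq_prod_range
      (fun j => (1 - ((p : ℝ)⁻¹) ^ (n + 1 - 1 - j + 1))) (n + 1), Nat.cast_prod, e0,
      ← Finset.prod_mul_distrib]
    refine Finset.prod_congr rfl fun i _ => ?_
    have hi : (i : ℕ) ≤ n := by omega
    rw [Nat.cast_sub (Nat.pow_le_pow_right (by omega) (by omega)), Nat.cast_pow, Nat.cast_pow,
      mul_sub, mul_one]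
    congr 1
    have h2 : n + 1 - 1 - (i : ℕ) + 1 = n + 1 - i := by omega
    rw [h2, inv_pow, ← div_eq_mul_inv, eq_div_iff (by positivity), ← pow_add]
    congr 1
    omega
  have h4 : ((p ^ ((n + 1) * (n + 1)) : ℕ) : ℝ) ≤
      ((4 * ∏ i : Fin (n + 1), (p ^ (n + 1) - p ^ (i : ℕ)) : ℕ) : ℝ) := by
    rw [Nat.cast_mul, e, Nat.cast_pow]
    have h5 : (1 / 4 : ℝ) ≤ ∏ j ∈ Finset.range (n + 1), (1 - ((p : ℝ)⁻¹) ^ (j + 1)) :=
      le_trans (by have : (0 : ℝ) < (1 / 2) ^ (n + 2) := by positivity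
                   linarith) key
    have h6 : (0 : ℝ) < (p : ℝ) ^ ((n + 1) * (n + 1)) := by positivity
    push_cast
    nlinarith
  exact_mod_cast h4

end Pool.Agent.J4H92.PG
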